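import Pool.Agent.N561.EK.StmX

/-!
# Project EK, expansions: elementary lemmas
-/

set_option autoImplicit false

namespace Pool.Agent.N475.EK

open Finset Filter Topology Metric
open Pool.Agent.W711.HT hiding XX
open Pool.Agent.TH563.UV
open Pool.Agent.TH563.V
open Pool.Agent.N561
open Pool.Agent.N561.EK
open Pool.Agent.W719.AX (UX GX)
open scoped Real

/-! ### Expansions -/

section
variable {E : Type} {Y Y' A B : ℕ → E → ℂ} {S S' : Set E}

theorem ux_eq (h : UX Y A S) (he : ∀ N : ℕ, ∀ p ∈ S, Y' N p = Y N p) : UX Y' A S := by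
  intro K
  obtain ⟨C, hC⟩ := h K
  exact ⟨C, hC.mono fun N hN p hp => by rw [he N p hp]; exact hN p hp⟩

theorem ux_mono (h : UX Y A S) (hs : S' ⊆ S) : UX Y A S' := by
  intro K
  obtain ⟨C, hC⟩ := h K
  exact ⟨C, hC.mono fun N hN p hp => hN p (hs hp)⟩

theorem ux_comp {E' : Type} (h : UX Y A S) (f : E' → E) (T : Set E') (hf : ∀ p ∈ T, f p ∈ S) :
    UX (fun N p => Y N (f p)) (fun k p => A k (f p)) T := by
  intro K
  obtain ⟨C, hC⟩ := h K
  exact ⟨C, hC.mono fun N hN p hp => hN (f p) (hf p hp)⟩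

/-- the coefficients may be changed outside the set -/
theorem ux_coef (h : UX Y A S) (he : ∀ k, ∀ p ∈ S, B k p = A k p) : UX Y B S := by
  intro K
  obtain ⟨C, hC⟩ := h K
  refine ⟨C, hC.mono fun N hN p hp => ?_⟩
  rw [Finset.sum_congr rfl fun k _ => by rw [he k p hp]]
  exact hN p hp

/-- the coefficients are unique -/
theorem ux_uniq (hA : UX Y A S) (hB : UX Y B S) : ∀ k, ∀ p ∈ S, A k p = B k p := by
  intro k
  induction k using Nat.strong_induction_on with
  | _ k ih =>
    intro p hp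
    obtain ⟨C₁, h1⟩ := hA (k + 1)
    obtain ⟨C₂, h2⟩ := hB (k + 1)
    have h3 : ∀ᶠ N : ℕ in atTop, ‖A k p - B k p‖ ≤ (C₁ + C₂) / N := by
      filter_upwards [h1, h2, eventually_gt_atTop 0] with N a1 a2 hN
      have hN0 : (0 : ℝ) < N := by exact_mod_cast hN
      have b1 := a1 p hp
      have b2 := a2 p hp
      rw [Finset.sum_range_succ] at b1 b2
      have e1 : ∑ j ∈ range k, A j p / (N : ℂ) ^ j = ∑ j ∈ range k, B j p / (N : ℂ) ^ j :=
        Finset.sum_congr rfl fun j hj => by rw [ih j (Finset.mem_range.mp hj) p hp]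
      rw [e1] at b1
      have e2 : (A k p - B k p) / (N : ℂ) ^ k =
          (Y N p - (∑ j ∈ range k, B j p / (N : ℂ) ^ j + B k p / (N : ℂ) ^ k)) -
          (Y N p - (∑ j ∈ range k, B j p / (N : ℂ) ^ j + A k p / (N : ℂ) ^ k)) := by ring
      have e3 : ‖(A k p - B k p) / (N : ℂ) ^ k‖ ≤ (C₁ + C₂) / (N : ℝ) ^ (k + 1) := by
        rw [e2]
        refine (norm_sub_le _ _).trans ?_
        rw [add_div]
        linarith
      rw [norm_div, norm_pow, Complex.norm_natCast, div_le_iff₀ (by positivity)] at e3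
      refine e3.trans (le_of_eq ?_)
      rw [pow_succ]
      field_simp
    have h4 : Tendsto (fun N : ℕ => (C₁ + C₂) / (N : ℝ)) atTop (𝓝 0) :=
      tendsto_const_nhds.div_atTop tendsto_natCast_atTop_atTop
    have h5 : ‖A k p - B k p‖ ≤ 0 := ge_of_tendsto h4 h3
    have h6 := norm_le_zero_iff.mp h5
    exact sub_eq_zero.mp h6

end

/-- the normalising factor grows slower than any exponential -/
theorem nn_ev (q : ℕ) {ε : ℝ} (hε : 0 < ε) : ∀ᶠ N : ℕ in atTop,
    ‖(N : ℂ) ^ (2 * q) * (-1) ^ (N * q)‖ ≤ Real.exp (ε * N) := by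
  have h1 := (isLittleO_pow_exp_pos_mul_atTop (k := 2 * q) hε).bound one_pos
  have h2 := tendsto_natCast_atTop_atTop.eventually h1
  filter_upwards [h2] with N hN
  rw [norm_mul, norm_pow, norm_pow, norm_neg, norm_one, one_pow, mul_one, Complex.norm_natCast]
  rw [one_mul, Real.norm_of_nonneg (by positivity), Real.norm_of_nonneg (Real.exp_pos _).le] at hN
  exact hN

/-! ### The domains -/

theorem isOpen_DD : IsOpen DD := by
  have h1 : IsOpen {w : ℂ | |w.re| < 21 / 20} := isOpen_lt Complex.continuous_re.abs continuous_const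
  have h2 : IsOpen {w : ℂ | |w.im| < 1 / 4} := isOpen_lt Complex.continuous_im.abs continuous_const
  exact h1.inter h2

theorem D1_sub : D1 ⊆ DD := by
  intro w hw
  have h1 := Complex.abs_re_le_norm w
  refine ⟨by linarith [hw.1], ?_⟩
  have := hw.2
  norm_num at this ⊢
  linarith

theorem D0_sub : D0 ⊆ D1 := by
  intro w hw
  refine ⟨hw.1, ?_⟩
  have h1 : 0 ≤ w.im := by
    rcases hw.2.2 with h | h
    · rw [h]; simp
    · exact h.le
  rw [abs_of_nonneg h1]
  exact hw.2.1

theorem zero_mem_D0 : (0 : ℂ) ∈ D0 := ⟨by simp; norm_num, by simp; norm_num, Or.inl rfl⟩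

theorem zero_mem_DD : (0 : ℂ) ∈ DD := D1_sub (D0_sub zero_mem_D0)

/-- the derivatives of `qq` -/
theorem qq_deriv {a : ℤ} {F : ℂ → ℂ} {w : ℂ} (h : DifferentiableAt ℂ F w) :
    HasDerivAt (qq a F) (Complex.I * a * w / (2 * π) + Complex.I + deriv F w) w := by
  have h1 : HasDerivAt (fun w : ℂ => Complex.I * a * w ^ 2 / (4 * π))
      (Complex.I * a * w / (2 * π)) w := by
    have h2 : HasDerivAt (fun w : ℂ => Complex.I * a * w ^ 2 / (4 * π))
        (Complex.I * a * (2 * w) / (4 * π)) w := by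
      simpa using ((hasDerivAt_pow 2 w).const_mul (Complex.I * a)).div_const (4 * (π : ℂ))
    convert h2 using 1
    have : (π : ℂ) ≠ 0 := by exact_mod_cast Real.pi_ne_zero
    field_simp
    norm_num
  have h3 : HasDerivAt (fun w : ℂ => Complex.I * w) Complex.I w := by
    simpa using (hasDerivAt_id w).const_mul Complex.I
  exact (h1.add h3).add h.hasDerivAt

theorem qq_deriv2 {a : ℤ} {F : ℂ → ℂ} {S : Set ℂ} (hS : IsOpen S) (hF : DifferentiableOn ℂ F S)
    {w : ℂ} (hw : w ∈ S) :
    deriv (deriv (qq a F)) w = Complex.I * a / (2 * π) + deriv (deriv F) w := by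
  have h1 : deriv (qq a F) =ᶠ[𝓝 w]
      fun w => Complex.I * a * w / (2 * π) + Complex.I + deriv F w := by
    filter_upwards [hS.mem_nhds hw] with u hu
    exact (qq_deriv (hF.differentiableAt (hS.mem_nhds hu))).deriv
  rw [h1.deriv_eq]
  have h2 : DifferentiableAt ℂ (deriv F) w :=
    (hF.deriv hS).differentiableAt (hS.mem_nhds hw)
  have h3 : HasDerivAt (fun w : ℂ => Complex.I * a * w / (2 * π)) (Complex.I * a / (2 * π)) w := by
    simpa using ((hasDerivAt_id w).const_mul (Complex.I * a)).div_const (2 * (π : ℂ))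
  exact ((h3.add_const _).add h2.hasDerivAt).deriv

/-- the exact identity at a vertex -/
theorem qq_tg (a : ℤ) (F : ℂ → ℂ) {z G : ℂ} (hz : 0 < z.im)
    (hG : Complex.I * a * z / (2 * π) + Complex.I + G = 0) (w : ℂ) :
    (qq a F w).re - (F w).re + tg z G w = (qq a F z).re - (F z).re := by
  have hπ := Real.pi_pos
  have hG' : G = -(Complex.I * a * z / (2 * π) + Complex.I) := by linear_combination hG
  have e1 : ∀ u : ℂ, (qq a F u).re - (F u).re = -(a * u.re * u.im / (2 * π)) - u.im := by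
    intro u
    have e : Complex.I * a * u ^ 2 / (4 * π) + Complex.I * u =
        ((-(a * u.re * u.im / (2 * π)) - u.im : ℝ) : ℂ) +
        ((a * (u.re ^ 2 - u.im ^ 2) / (4 * π) + u.re : ℝ) : ℂ) * Complex.I := by
      have hu : u = (u.re : ℂ) + u.im * Complex.I := (Complex.re_add_im u).symm
      have hp : (π : ℂ) ≠ 0 := by exact_mod_cast hπ.ne'
      conv_lhs => rw [hu]
      push_cast
      field_simp
      ring_nf
      simp only [Complex.I_sq, show Complex.I ^ 3 = -Complex.I by
        rw [pow_succ, Complex.I_sq]; ring]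
      ring
    unfold qq
    rw [Complex.add_re, e, Complex.add_re, Complex.ofReal_re, Complex.re_ofReal_mul, Complex.I_re]
    ring
  have e2 : G.re = a * z.im / (2 * π) ∧ G.im = -(a * z.re / (2 * π)) - 1 := by
    have e : G = ((a * z.im / (2 * π) : ℝ) : ℂ) +
        ((-(a * z.re / (2 * π)) - 1 : ℝ) : ℂ) * Complex.I := by
      rw [hG']
      have hp : (π : ℂ) ≠ 0 := by exact_mod_cast hπ.ne'
      have hu : z = (z.re : ℂ) + z.im * Complex.I := (Complex.re_add_im z).symm
      conv_lhs => rw [hu]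
      push_cast
      field_simp
      ring_nf
      simp only [Complex.I_sq]
      ring
    constructor
    · rw [e, Complex.add_re, Complex.ofReal_re, Complex.re_ofReal_mul, Complex.I_re]
      ring
    · rw [e, Complex.add_im, Complex.ofReal_im, Complex.im_ofReal_mul, Complex.I_im]
      ring
  rw [e1, e1]
  unfold tg
  rw [e2.1, e2.2]
  field_simp
  ring

end Pool.Agent.N475.EK
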