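import Pool.Agent.N475.EK.Bas

/-!
# Project EK, expansions: from local expansions to expansions on `DD`
-/

set_option autoImplicit false

namespace Pool.Agent.N475.EK

open Finset Filter Topology Metric
open Pool.Agent.W711.HT hiding XX
open Pool.Agent.TH563.UV
open Pool.Agent.TH563.V
open Pool.Agent.N561
open Pool.Agent.N561.EK
open Pool.Agent.W719.AX (UX GX)
open scoped Real

theorem ux_union {E : Type} {Y A : ℕ → E → ℂ} {S T : Set E} (h : UX Y A S) (h' : UX Y A T) :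
    UX Y A (S ∪ T) := by
  intro K
  obtain ⟨C, hC⟩ := h K
  obtain ⟨C', hC'⟩ := h' K
  refine ⟨max C C', ?_⟩
  filter_upwards [hC, hC'] with N h1 h2 p hp
  have hN : (0 : ℝ) ≤ (N : ℝ) ^ K := by positivity
  rcases hp with hp | hp
  · exact (h1 p hp).trans (div_le_div_of_nonneg_right (le_max_left _ _) hN)
  · exact (h2 p hp).trans (div_le_div_of_nonneg_right (le_max_right _ _) hN)

open Classical in
theorem gxd_of_local {m : ℕ} {Y : ℕ → ℂ → ℂ} {F : ℂ → ℂ}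
    (hloc : ∀ p ∈ DD, ∃ r : ℝ, 0 < r ∧ ∃ A : ℕ → ℂ → ℂ, GXG (ball p r) m Y F A) :
    ∃ A : ℕ → ℂ → ℂ, GXD m Y F A := by
  choose r hr A hA using hloc
  obtain ⟨B, hB⟩ : ∃ B : ℕ → ℂ → ℂ, ∀ k z, ∀ h : z ∈ DD, B k z = A z h k z := by
    refine ⟨fun k z => if h : z ∈ DD then A z h k z else 0, fun k z h => ?_⟩
    dsimp only
    rw [dif_pos h]
  have hBA : ∀ p, ∀ hp : p ∈ DD, ∀ w ∈ ball p (r p hp), w ∈ DD → ∀ k, B k w = A p hp k w := by
    intro p hp w hw hwD k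
    rw [hB k w hwD]
    have h1 : UX (fun N z => (N : ℂ) ^ (2 * m) * (-1) ^ (N * m) * Complex.exp (-(N * F z)) * Y N z)
        (A w hwD) {w} :=
      ux_mono (hA w hwD).ux (Set.singleton_subset_iff.mpr (mem_ball_self (hr w hwD)))
    have h2 : UX (fun N z => (N : ℂ) ^ (2 * m) * (-1) ^ (N * m) * Complex.exp (-(N * F z)) * Y N z)
        (A p hp) {w} := ux_mono (hA p hp).ux (Set.singleton_subset_iff.mpr hw)
    exact ux_uniq h1 h2 k w rfl
  refine ⟨B, ⟨?_, ?_, ?_⟩⟩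
  · intro V hVD hVc
    refine hVc.induction_on (p := fun S => UX (fun N z => (N : ℂ) ^ (2 * m) * (-1) ^ (N * m) *
      Complex.exp (-(N * F z)) * Y N z) B S) ?_ ?_ ?_ ?_
    · intro K
      exact ⟨0, Eventually.of_forall fun N p hp => absurd hp (Set.notMem_empty p)⟩
    · intro S T hST hT
      exact ux_mono hT hST
    · intro S T hS hT
      exact ux_union hS hT
    · intro p hpV
      have hp := hVD hpV
      refine ⟨ball p (r p hp) ∩ DD, mem_nhdsWithin_of_mem_nhds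
        ((isOpen_ball.inter isOpen_DD).mem_nhds ⟨mem_ball_self (hr p hp), hp⟩), ?_⟩
      exact ux_coef (ux_mono (hA p hp).ux Set.inter_subset_left)
        fun k w hw => hBA p hp w hw.1 hw.2 k
  · intro k p hp
    have h1 : B k =ᶠ[𝓝 p] A p hp k := by
      filter_upwards [(isOpen_ball.inter isOpen_DD).mem_nhds ⟨mem_ball_self (hr p hp), hp⟩] with
        w hw
      exact hBA p hp w hw.1 hw.2 k
    have h2 : DifferentiableAt ℂ (A p hp k) p :=
      ((hA p hp).an k).differentiableAt (isOpen_ball.mem_nhds (mem_ball_self (hr p hp)))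
    exact (h2.congr_of_eventuallyEq h1).differentiableWithinAt
  · intro z hz
    rw [hB 0 z hz]
    exact (hA z hz).nz z (mem_ball_self (hr z hz))

/-- restriction of the expansions to a small rectangle -/
theorem gx_of_gxd {m : ℕ} {Y : ℕ → ℂ → ℂ} {F : ℂ → ℂ} {A : ℕ → ℂ → ℂ} (h : GXD m Y F A)
    {ρ τ : ℝ} (hρ : ρ < 21 / 20) (hτ : τ < 1 / 4) : GX ρ τ m Y F A := by
  have h1 : Rc ρ τ ⊆ {z : ℂ | |z.re| ≤ ρ ∧ |z.im| ≤ τ} := fun z hz => ⟨hz.1.le, hz.2.le⟩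
  have h2 : {z : ℂ | |z.re| ≤ ρ ∧ |z.im| ≤ τ} ⊆ DD := fun z hz =>
    ⟨lt_of_le_of_lt hz.1 hρ, lt_of_le_of_lt hz.2 hτ⟩
  have h3 : IsCompact {z : ℂ | |z.re| ≤ ρ ∧ |z.im| ≤ τ} := by
    have h4 : {z : ℂ | |z.re| ≤ ρ ∧ |z.im| ≤ τ} = Set.Icc (-ρ) ρ ×ℂ Set.Icc (-τ) τ := by
      ext z
      simp only [Set.mem_ofPred_eq, Complex.mem_reProdIm, Set.mem_Icc, abs_le]
    rw [h4]
    exact isCompact_Icc.reProdIm isCompact_Icc
  exact ⟨ux_mono (h.ux _ h2 h3) h1, fun k => (h.an k).mono (h1.trans h2),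
    fun z hz => h.nz z (h2 (h1 hz))⟩

end Pool.Agent.N475.EK
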