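import Pool.Agent.N475.EK.Gv
import Pool.Agent.N475.EK.Loc
import Pool.Agent.W398.HT.STPE

/-!
# Project EK, expansions: a child with a circle
-/

set_option autoImplicit false

namespace Pool.Agent.N475.EK

open Finset Filter Topology Metric
open Pool.Agent.W711.HT hiding XX
open Pool.Agent.TH563.UV
open Pool.Agent.TH563.V
open Pool.Agent.N561
open Pool.Agent.N561.EK
open Pool.Agent.W293.HT (GH)
open Pool.Agent.W719.AX (UX GX)
open scoped Real

/-- a lower bound of `bet` (proof of helper424) -/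
theorem bet_low : 2 - π / 2 ≤ bet := by
  have hpi := Real.pi_pos
  have h1 : ∫ t in (0:ℝ)..(π / 4), Real.log (2 * Real.sin t) ≤
      ∫ t in (0:ℝ)..(π / 4), (Real.log 2 + Real.log t) := by
    apply intervalIntegral.integral_mono_on_of_le_Ioo (by positivity)
    · have : IntervalIntegrable (fun t => Real.log 2 + Real.log (Real.sin t))
          MeasureTheory.volume 0 (π / 4) :=
        (intervalIntegrable_const).add intervalIntegrable_log_sin
      refine this.congr_uIoo ?_
      intro t ht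
      rw [Set.uIoo_of_le (by positivity)] at ht
      have hs : 0 < Real.sin t := Real.sin_pos_of_pos_of_lt_pi ht.1 (by linarith [ht.2])
      show Real.log 2 + Real.log (Real.sin t) = Real.log (2 * Real.sin t)
      rw [Real.log_mul (by norm_num) hs.ne']
    · exact (intervalIntegrable_const).add intervalIntegral.intervalIntegrable_log'
    · intro t ht
      have hs : 0 < Real.sin t := Real.sin_pos_of_pos_of_lt_pi ht.1 (by linarith [ht.2])
      rw [Real.log_mul (by norm_num) hs.ne']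
      have := Real.log_le_log hs (Real.sin_le ht.1.le)
      linarith
  have h2 : ∫ t in (0:ℝ)..(π / 4), (Real.log 2 + Real.log t) =
      π / 4 * Real.log 2 + (π / 4 * Real.log (π / 4) - π / 4) := by
    rw [intervalIntegral.integral_add intervalIntegrable_const
      intervalIntegral.intervalIntegrable_log', integral_log]
    simp
  have h3 : π / 4 * Real.log 2 + π / 4 * Real.log (π / 4) = π / 4 * Real.log (π / 2) := by
    rw [← mul_add, ← Real.log_mul (by norm_num) (by positivity)]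
    congr 2
    ring
  have h4 : Real.log (π / 2) ≤ π / 2 - 1 := Real.log_le_sub_one_of_pos (by positivity)
  unfold bet
  have h5 : (2 - π / 2) * (π / 4) ≤ -∫ t in (0:ℝ)..(π / 4), Real.log (2 * Real.sin t) := by
    have := mul_le_mul_of_nonneg_left h4 (by positivity : 0 ≤ π / 4)
    linarith
  have h6 := mul_le_mul_of_nonneg_left h5 (by positivity : 0 ≤ 4 / π)
  have h7 : 4 / π * ((2 - π / 2) * (π / 4)) = 2 - π / 2 := by
    field_simp
  rw [h7] at h6
  linarith

theorem convex_DD : Convex ℝ DD := by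
  have h := Pool.Agent.W293.HT.convex_Rc (21 / 20) (1 / 4)
  exact h

theorem norm_DD {w : ℂ} (hw : w ∈ DD) : ‖w‖ ≤ 11 / 10 := by
  have h1 := hw.1
  have h2 := hw.2
  have h3 := Complex.sq_norm w
  rw [Complex.normSq_apply] at h3
  have h4 : w.re * w.re ≤ (21 / 20) ^ 2 := by
    rw [← abs_mul_abs_self w.re]
    nlinarith [abs_nonneg w.re]
  have h5 : w.im * w.im ≤ (1 / 4) ^ 2 := by
    rw [← abs_mul_abs_self w.im]
    nlinarith [abs_nonneg w.im]
  have h6 : ‖w‖ ^ 2 ≤ (11 / 10) ^ 2 := by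
    rw [h3]
    norm_num at h4 h5 ⊢
    linarith
  exact le_of_sq_le_sq_of_nonneg' h6
where
  le_of_sq_le_sq_of_nonneg' {x : ℝ} (h : x ^ 2 ≤ (11 / 10) ^ 2) : x ≤ 11 / 10 := by
    nlinarith

/-- the potential is at least `bet` -/
theorem slow (hP : POT) (hM : MUL) {p : ℂ} (hp : p ∈ DD) : bet ≤ (sg 0 p).re := by
  have hπ := Real.pi_gt_d2
  have hπ' := Real.pi_lt_d2
  have hd : ∀ w ∈ DD, HasDerivAt (fun z => sg z 0) (s1 w 0) w := by
    intro w hw
    have h1 := hP.d1 w hw 0 zero_mem_DD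
    have h2 : s1 w 0 = _ := h1.deriv
    rw [h2]
    exact h1
  have hb : ∀ w ∈ DD, ‖deriv (fun z => sg z 0) w‖ ≤ 11 / 50 := by
    intro w hw
    rw [(hd w hw).deriv]
    have h1 := hM.mD w hw 0 zero_mem_DD
    have h2 : ‖s1 w 0‖ ≤ ‖s1 w 0 + w / (2 * π)‖ + ‖w / (2 * π)‖ := by
      have := norm_sub_le (s1 w 0 + w / (2 * π)) (w / (2 * π))
      rwa [add_sub_cancel_right] at this
    have h3 : ‖w / (2 * π)‖ = ‖w‖ / (2 * π) := by
      rw [norm_div, norm_mul, Complex.norm_real, Real.norm_of_nonneg Real.pi_pos.le]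
      norm_num
    have h4 := norm_DD hw
    have h5 : ‖s1 w 0‖ ≤ 5 / 4 * ‖w‖ / (2 * π) := by
      rw [h3] at h2
      have e : 1 / 4 * ‖w‖ / (2 * π) + ‖w‖ / (2 * π) = 5 / 4 * ‖w‖ / (2 * π) := by ring
      linarith
    refine h5.trans ?_
    rw [div_le_iff₀ (by positivity)]
    nlinarith
  have h1 := convex_DD.norm_image_sub_le_of_norm_deriv_le (𝕜 := ℂ)
    (fun w hw => (hd w hw).differentiableAt) hb zero_mem_DD hp
  have h2 := norm_DD hp
  have h3 : ‖sg p 0 - sg 0 0‖ ≤ 11 / 50 * (11 / 10) := by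
    refine h1.trans ?_
    rw [sub_zero]
    nlinarith [norm_nonneg p]
  have h4 := (Complex.abs_re_le_norm _).trans h3
  rw [Complex.sub_re, hP.zero, Complex.ofReal_re, hP.sym p 0, abs_le] at h4
  have h5 := bet_low
  linarith [h4.1]

theorem ker_symm (N : ℕ) (ψ φ : ℂ) : ker N ψ φ = ker N φ ψ := by
  unfold Pool.Agent.W711.HT.ker
  exact Finset.sum_congr rfl fun d _ => by ring

theorem ker_diff (N : ℕ) (p : ℂ) : Differentiable ℂ (fun w => ker N w p) := by
  unfold Pool.Agent.W711.HT.ker Rp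
  fun_prop

/-- the data of an edge near a point of `DD` -/
theorem ed_disc (hP : POT) (hH : HES) (hM : MUL) (hE : EDG) (hK : KMW) (hR : KFR) {p₀ : ℂ}
    (hp₀ : p₀ ∈ DD) : ∃ r κ c C : ℝ, 0 < r ∧ closedBall p₀ r ⊆ DD ∧
      ED (1 / 20) (1 / 20) κ c C (ball p₀ r) ker sg := by
  have hπ := Real.pi_pos
  have hπ' := Real.pi_lt_d2
  obtain ⟨r, hr, hrD⟩ := Metric.nhds_basis_closedBall.mem_iff.mp (isOpen_DD.mem_nhds hp₀)
  have hsub3 : Rc (3 * (1 / 20)) (3 * (1 / 20)) ⊆ RR1 := by
    intro w hw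
    have h1 := hw.1
    have h2 := hw.2
    norm_num at h1 h2
    exact ⟨by linarith, by linarith⟩
  have hsub3D := hsub3.trans RR1_sub
  have hBc : IsCompact (closedBall p₀ r) := isCompact_closedBall _ _
  have hVc : IsCompact (RR1 ∪ closedBall p₀ r) := RR1_compact.union hBc
  have hVD : RR1 ∪ closedBall p₀ r ⊆ DD := Set.union_subset RR1_sub hrD
  have hsan : ContinuousOn (fun x : ℂ × ℂ => sg x.1 x.2) (RR1 ×ˢ closedBall p₀ r) :=
    hP.san.continuousOn.mono (Set.prod_mono RR1_sub hrD)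
  -- the bound
  obtain ⟨C, hC⟩ := (RR1_compact.prod hBc).exists_bound_of_continuousOn hsan
  -- the far part
  obtain ⟨κ, δ, hκ, hδ, hδ1, hnear⟩ := far_near (f := fun w p => (sg w p).re) hBc
    (Complex.continuous_re.comp_continuousOn hsan) (fun p hp w hw => by
      obtain ⟨h1, h2⟩ := RL1_PP hw
      have h3 := (hE.e1 0 zero_mem_D0 p (hrD hp) w h1).2.1 h2
      rw [tg_zero _ hw.2.2, add_zero] at h3
      exact h3)
  have h1 : ∀ p ∈ closedBall p₀ r, (sg p 1).re + 1 / 50 ≤ (sg 0 p).re := by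
    intro p hp
    have h2 := (hE.e1 0 zero_mem_D0 p (hrD hp) 1
      (Or.inl ⟨by simp, by simp⟩)).2.2 ⟨by simp, by simp⟩
    rw [tg_zero _ (by simp), add_zero] at h2
    rwa [hP.sym p 1]
  obtain ⟨τ, hτ, hfar⟩ := hR.f1 _ hrD hBc (1 / 400) (by norm_num)
  obtain ⟨μ, hμ⟩ : ∃ μ : ℝ, μ = min (κ / 2) (1 / 200) := ⟨_, rfl⟩
  have hμ0 : 0 < μ := by rw [hμ]; exact lt_min (by positivity) (by norm_num)
  have hμ1 : μ ≤ κ / 2 := by rw [hμ]; exact min_le_left _ _
  have hμ2 : μ ≤ 1 / 200 := by rw [hμ]; exact min_le_right _ _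
  refine ⟨r, μ, 3 / (10 * π), max C 1, hr, hrD, ?_⟩
  refine
    { hρ := ⟨by norm_num, by norm_num⟩
      hτ := ⟨by norm_num, le_rfl⟩
      hκ := ⟨hμ0, ?_⟩
      hc := by positivity
      hC := lt_of_lt_of_le one_pos (le_max_right _ _)
      hU := isOpen_ball
      kan := fun N p _ => ker_diff N p
      san := hP.san.mono (Set.prod_mono hsub3D (ball_subset_closedBall.trans hrD))
      sbd := fun ψ hψ p hp => (hC (ψ, p) ⟨hsub3 hψ, ball_subset_closedBall hp⟩).trans
        (le_max_left _ _)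
      ev := fun ψ _ p _ => hP.ev ψ p
      conc := ?_
      slow := fun p hp => slow hP hM (hrD (ball_subset_closedBall hp))
      mw := ?_
      far := ?_ }
  · have := bet_low
    linarith
  · intro ψ hψ p hp
    have hψD := hsub3D hψ
    have hpD := hrD (ball_subset_closedBall hp)
    have h2 := hP.d11 ψ hψD p hpD
    have h3 : deriv (deriv fun z => sg z p) ψ =
        -(1 / (2 * π)) * (Complex.cos (p / 2) / (Complex.cos (ψ / 2) * rr ψ p)) := h2.deriv
    rw [h3]
    have h4 := hH.hes ψ hψD p hpD 1 0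
    have h5 : 3 / 5 ≤ (Complex.cos (p / 2) / (Complex.cos (ψ / 2) * rr ψ p)).re := by
      linarith
    have e : (-(1 / (2 * π)) : ℂ) = ((-(1 / (2 * π)) : ℝ) : ℂ) := by push_cast; ring
    rw [e, Complex.re_ofReal_mul]
    have h6 : 0 < 1 / (2 * π) := by positivity
    have h7 : 3 / (10 * π) = 1 / (2 * π) * (3 / 5) := by
      field_simp
      ring
    rw [h7]
    nlinarith
  · intro ε hε
    filter_upwards [hK _ hVD hVc ε hε] with N h ψ hψ p hp
    exact h ψ (Or.inl (hsub3 hψ)) p (Or.inr (ball_subset_closedBall hp))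
  · filter_upwards [hfar, hK _ hVD hVc (κ / 2) (by positivity), inv_ev hτ, inv_ev hδ] with
      N a1 a2 a3 a4 x y hx hx' hy p hp
    have hN : (0 : ℝ) ≤ N := Nat.cast_nonneg N
    have hp' := ball_subset_closedBall hp
    rcases le_total 1 |x| with h | h
    · rw [ker_symm]
      refine (a1 p hp' x y h hx' (hy.trans a3)).trans (Real.exp_le_exp.2 ?_)
      apply mul_le_mul_of_nonneg_left _ hN
      have := h1 p hp'
      linarith
    · have hm := mem_RR1 (x := x) (y := y) h ((hy.trans a4).trans (hδ1.trans (by norm_num)))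
      obtain ⟨b1, b2⟩ := a2 _ (Or.inl hm) p (Or.inr hp')
      refine (le_of_mw (norm_pos_iff.mpr b1) b2).trans (Real.exp_le_exp.2 ?_)
      apply mul_le_mul_of_nonneg_left _ hN
      have b3 := hnear p hp' x y hx h (hy.trans a4)
      linarith

/-- the function of a child with a circle -/
theorem stk_stpb (a : ℤ) (X : ℕ → ℂ → ℂ) (N : ℕ) (p : ℂ) :
    stk a (fun N w => UN N w * X N w) ker N p = stpb true a X N p := by
  unfold stk stpb Eb
  congr 1
  funext w
  simp only [if_true]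
  ring

theorem stk_diff (a : ℤ) {X : ℕ → ℂ → ℂ} (hX : ∀ N, Differentiable ℂ (X N)) (N : ℕ) :
    Differentiable ℂ (stk a (fun N w => UN N w * X N w) ker N) := by
  have h1 : ∀ N, Differentiable ℂ ((fun (N : ℕ) (w : ℂ) => UN N w * X N w) N) := by
    intro N
    have h2 : Differentiable ℂ (UN N) := by
      unfold UN
      fun_prop
    exact h2.mul (hX N)
  have h3 := (Pool.Agent.W398.HT.t_STPE a _ h1).1 N
  have h4 : stk a (fun N w => UN N w * X N w) ker N =
      stp a (fun N w => UN N w * X N w) N := by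
    funext p
    unfold stk stp
    congr 1
    funext w
    ring
  rw [h4]
  exact h3

theorem cix (hVTX : Pool.Agent.TH563.V.S_VTX) : S_CIX := by
  intro hP hH hM hE hK hR Ak hAk t m a X F A hX hA
  obtain ⟨κ₁, c₁, C₁, hκ₁, hc₁, hC₁, hG⟩ := goodV hX
  refine gxd_of_local fun p₀ hp₀ => ?_
  obtain ⟨r, κ, c, C, hr, hrD, hED⟩ := ed_disc hP hH hM hE hK hR hp₀
  have hVc : IsCompact (RR1 ∪ closedBall p₀ r) := RR1_compact.union (isCompact_closedBall _ _)
  have hVD : RR1 ∪ closedBall p₀ r ⊆ DD := Set.union_subset RR1_sub hrD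
  have hsub : Rc (1 / 20) (1 / 20) ⊆ RR1 := by
    intro w hw
    have h1 := hw.1
    have h2 := hw.2
    exact ⟨by linarith, by linarith⟩
  have hball : ball p₀ (r / 2) ⊆ closedBall p₀ r :=
    ball_subset_closedBall.trans (closedBall_subset_closedBall (by linarith))
  have hKXG : KXG (1 / 20) (1 / 20) (ball p₀ (r / 2)) ker sg Ak :=
    { hρ := by norm_num
      hτ := by norm_num
      hV := isOpen_ball
      ux := ux_mono (hAk.ux _ hVD hVc) (Set.prod_mono (hsub.trans Set.subset_union_left)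
        (hball.trans Set.subset_union_right))
      d1 := fun n p hp => (hAk.d1 n p (hrD (hball hp))).mono (hsub.trans RR1_sub)
      nz := fun x hx => hAk.nz x ⟨RR1_sub (hsub hx.1), hrD (hball hx.2)⟩ }
  obtain ⟨A', hA'⟩ := hVTX _ _ _ _ _ _ _ _ hED κ₁ c₁ C₁ hκ₁ hc₁ hC₁ t X F hG (1 / 20) (1 / 20)
    (ball p₀ (r / 2)) (closedBall p₀ (r / 2)) Ak le_rfl le_rfl hKXG (isCompact_closedBall _ _)
    ball_subset_closedBall (closedBall_subset_ball (by linarith)) m A
    (gx_of_gxd hA (by norm_num) (by norm_num)) a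
    (fun N => (stk_diff a hX.an N).differentiableOn)
  refine ⟨r / 2, by positivity, A', ?_, hA'.an, hA'.nz⟩
  refine ux_eq hA'.ux ?_
  intro N p _
  rw [stk_stpb]

end Pool.Agent.N475.EK
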