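import Pool.Agent.N475.EK.Rt1

/-!
# Project EK, expansions: the functions of the recursion near `0`
-/

set_option autoImplicit false

namespace Pool.Agent.N475.EK

open Finset Filter Topology Metric
open Pool.Agent.W711.HT hiding XX
open Pool.Agent.TH563.UV
open Pool.Agent.TH563.V
open Pool.Agent.N561
open Pool.Agent.N561.EK
open Pool.Agent.W293.HT (GH)
open Pool.Agent.W719.AX (UX GX)
open scoped Real

/-- the closed rectangle `|re| ≤ 1`, `|im| ≤ 1 / 5` -/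
def RR1 : Set ℂ := {w | |w.re| ≤ 1 ∧ |w.im| ≤ 1 / 5}

theorem RR1_compact : IsCompact RR1 := by
  have h4 : RR1 = Set.Icc (-1) 1 ×ℂ Set.Icc (-(1 / 5)) (1 / 5) := by
    ext z
    simp only [RR1, Set.mem_ofPred_eq, Complex.mem_reProdIm, Set.mem_Icc, abs_le]
  rw [h4]
  exact isCompact_Icc.reProdIm isCompact_Icc

theorem RR1_sub : RR1 ⊆ DD := fun z hz =>
  ⟨lt_of_le_of_lt hz.1 (by norm_num), lt_of_le_of_lt hz.2 (by norm_num)⟩

/-- the real part of the rectangle, away from `0` -/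
def RL1 : Set ℂ := {w | 1 / 20 ≤ |w.re| ∧ |w.re| ≤ 1 ∧ w.im = 0}

theorem RL1_sub : RL1 ⊆ RR1 := fun z hz => ⟨hz.2.1, by rw [hz.2.2]; norm_num⟩

theorem RL1_compact : IsCompact RL1 := by
  refine RR1_compact.of_isClosed_subset ?_ RL1_sub
  have h1 : IsClosed {w : ℂ | 1 / 20 ≤ |w.re|} :=
    isClosed_le continuous_const Complex.continuous_re.abs
  have h2 : IsClosed {w : ℂ | |w.re| ≤ 1} := isClosed_le Complex.continuous_re.abs continuous_const
  have h3 : IsClosed {w : ℂ | w.im = 0} := isClosed_eq Complex.continuous_im continuous_const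
  exact h1.inter (h2.inter h3)

theorem RL1_nonempty : RL1.Nonempty := ⟨1, by simp; norm_num, by simp, by simp⟩

theorem RL1_PP {w : ℂ} (hw : w ∈ RL1) : w ∈ PP 0 ∧ w ≠ 0 := by
  refine ⟨Or.inl ⟨hw.2.1, by rw [hw.2.2]; simp⟩, ?_⟩
  intro h
  have := hw.1
  rw [h] at this
  norm_num at this

/-- the tangent plane at `0` is horizontal on the real axis -/
theorem tg_zero (G : ℂ) {w : ℂ} (hw : w.im = 0) : tg 0 G w = 0 := by
  unfold tg
  rw [hw]
  simp

/-- small rectangles -/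
theorem Rc_sub {ρ τ : ℝ} (hρ : ρ ≤ 21 / 20) (hτ : τ ≤ 1 / 4) : Rc ρ τ ⊆ DD :=
  fun _ hz => ⟨hz.1.trans_le hρ, hz.2.trans_le hτ⟩

theorem Rc_sub1 : Rc (2 * (1 / 20)) (2 * (1 / 20)) ⊆ D1 := by
  intro w hw
  have h1 := hw.1
  have h2 := hw.2
  have h3 := Complex.norm_le_abs_re_add_abs_im w
  refine ⟨?_, ?_⟩
  · norm_num at h1 h2 ⊢
    linarith
  · norm_num at h1 h2 ⊢
    linarith

/-- a function with a strict maximum at `0` on the real axis, uniformly in a parameter -/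
theorem far_near {E : Type} [TopologicalSpace E] {Q : Set E} (hQ : IsCompact Q)
    {f : ℂ → E → ℝ} (hf : ContinuousOn (fun x : ℂ × E => f x.1 x.2) (RR1 ×ˢ Q))
    (hlt : ∀ q ∈ Q, ∀ w ∈ RL1, f w q < f 0 q) :
    ∃ κ δ : ℝ, 0 < κ ∧ 0 < δ ∧ δ ≤ 1 / 10 ∧ ∀ q ∈ Q, ∀ x y : ℝ, 1 / 20 ≤ |x| → |x| ≤ 1 →
      |y| ≤ δ → f (x + y * Complex.I) q ≤ f 0 q - κ := by
  by_contra hcon
  push Not at hcon
  -- a compact set of bad points
  have h0 : (0 : ℂ) ∈ RR1 := ⟨by simp, by simp⟩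
  have hf0 : ContinuousOn (fun x : ℂ × E => f 0 x.2) (RR1 ×ˢ Q) := by
    have h1 : ContinuousOn (fun x : ℂ × E => ((0 : ℂ), x.2)) (RR1 ×ˢ Q) :=
      continuousOn_const.prodMk continuousOn_snd
    exact hf.comp h1 (fun x hx => ⟨h0, hx.2⟩)
  have hg : ContinuousOn (fun x : ℂ × E => f 0 x.2 - f x.1 x.2) (RR1 ×ˢ Q) := hf0.sub hf
  -- positive minimum on the real part
  have hK : IsCompact (RL1 ×ˢ Q) := RL1_compact.prod hQ
  have hpos : ∃ κ : ℝ, 0 < κ ∧ ∀ x ∈ RL1 ×ˢ Q, κ ≤ f 0 x.2 - f x.1 x.2 := by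
    rcases (RL1 ×ˢ Q).eq_empty_or_nonempty with h | h
    · exact ⟨1, one_pos, fun x hx => by rw [h] at hx; exact absurd hx (Set.notMem_empty x)⟩
    · obtain ⟨x₀, hx₀, hmin⟩ := hK.exists_isMinOn h
        (hg.mono (Set.prod_mono RL1_sub subset_rfl))
      refine ⟨f 0 x₀.2 - f x₀.1 x₀.2, by linarith [hlt x₀.2 hx₀.2 x₀.1 hx₀.1], fun x hx => ?_⟩
      exact hmin hx
  obtain ⟨κ, hκ, hκ'⟩ := hpos
  -- the set where the difference is at most `κ / 2`
  set B : Set (ℂ × E) := (RR1 ×ˢ Q) ∩ {x | 1 / 20 ≤ |x.1.re|} ∩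
    {x | x ∈ RR1 ×ˢ Q ∧ f 0 x.2 - f x.1 x.2 ≤ κ / 2} with hB
  have hcon' : ∀ n : ℕ, ∃ x ∈ B, |x.1.im| ≤ 1 / ((n : ℝ) + 10) := by
    intro n
    obtain ⟨q, hq, x, y, h1, h2, h3, h4⟩ := hcon (κ / 2) (1 / ((n : ℝ) + 10)) (by positivity)
      (by positivity) (by
        apply one_div_le_one_div_of_le (by norm_num)
        have : (0 : ℝ) ≤ n := Nat.cast_nonneg n
        linarith)
    have hn : (1 : ℝ) / ((n : ℝ) + 10) ≤ 1 / 10 := by
      apply one_div_le_one_div_of_le (by norm_num)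
      have : (0 : ℝ) ≤ n := Nat.cast_nonneg n
      linarith
    have hm : ((x : ℂ) + y * Complex.I, q) ∈ RR1 ×ˢ Q := by
      refine ⟨⟨?_, ?_⟩, hq⟩
      · simpa using h2
      · simpa using (h3.trans hn).trans (by norm_num)
    refine ⟨((x : ℂ) + y * Complex.I, q), ⟨⟨hm, ?_⟩, hm, ?_⟩, ?_⟩
    · simpa using h1
    · linarith
    · simpa using h3
  choose u hu hu' using hcon'
  -- compactness
  have hQ' : IsCompact (RR1 ×ˢ Q) := RR1_compact.prod hQ
  have hmap : Tendsto u (atTop : Filter ℕ) (𝓟 (RR1 ×ˢ Q)) :=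
    tendsto_principal.mpr (Eventually.of_forall fun n => (hu n).1.1)
  obtain ⟨x₀, hx₀, hcl⟩ := hQ' (f := map u atTop) hmap
  -- the limit point
  have hne : NeBot (𝓝 x₀ ⊓ map u atTop) := hcl
  have hcont := hg x₀ hx₀
  have him : x₀.1.im = 0 := by
    by_contra hne0
    have hpos : 0 < |x₀.1.im| := abs_pos.mpr hne0
    have h1 : ∀ᶠ x in 𝓝 x₀, |x₀.1.im| / 2 < |x.1.im| := by
      have hc : Continuous fun x : ℂ × E => |x.1.im| :=
        (Complex.continuous_im.comp continuous_fst).abs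
      exact hc.continuousAt.eventually (lt_mem_nhds (by linarith))
    have h2 : ∀ᶠ x in map u atTop, |x.1.im| ≤ |x₀.1.im| / 2 := by
      have h3 : ∀ᶠ n : ℕ in atTop, 1 / ((n : ℝ) + 10) ≤ |x₀.1.im| / 2 := by
        have h4 : Tendsto (fun n : ℕ => 1 / ((n : ℝ) + 10)) atTop (𝓝 0) := by
          refine tendsto_const_nhds.div_atTop ?_
          exact tendsto_natCast_atTop_atTop.atTop_add tendsto_const_nhds
        exact (h4.eventually (ge_mem_nhds (by linarith)))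
      exact h3.mono fun n hn => (hu' n).trans hn
    obtain ⟨x, hx1, hx2⟩ := ((h1.filter_mono inf_le_left).and (h2.filter_mono inf_le_right)).exists
    linarith
  have hre : 1 / 20 ≤ |x₀.1.re| := by
    by_contra hlt'
    push Not at hlt'
    have h1 : ∀ᶠ x in 𝓝 x₀, |x.1.re| < 1 / 20 := by
      have hc : Continuous fun x : ℂ × E => |x.1.re| :=
        (Complex.continuous_re.comp continuous_fst).abs
      exact hc.continuousAt.eventually (gt_mem_nhds hlt')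
    have h2 : ∀ᶠ x in map u atTop, 1 / 20 ≤ |x.1.re| :=
      Eventually.of_forall (fun n => (hu n).1.2) |> fun (h : ∀ᶠ n : ℕ in atTop, _) => h
    obtain ⟨x, hx1, hx2⟩ := ((h1.filter_mono inf_le_left).and (h2.filter_mono inf_le_right)).exists
    linarith
  have hx₀L : x₀ ∈ RL1 ×ˢ Q := ⟨⟨hre, hx₀.1.1, him⟩, hx₀.2⟩
  have h5 := hκ' x₀ hx₀L
  have h6 : ∀ᶠ x in 𝓝[RR1 ×ˢ Q] x₀, κ / 2 < f 0 x.2 - f x.1 x.2 :=
    hcont.eventually (lt_mem_nhds (by linarith))
  have h7 : ∀ᶠ x in 𝓝 x₀, x ∈ RR1 ×ˢ Q → κ / 2 < f 0 x.2 - f x.1 x.2 :=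
    eventually_nhdsWithin_iff.mp h6
  have h8 : ∀ᶠ x in map u atTop, x ∈ RR1 ×ˢ Q ∧ f 0 x.2 - f x.1 x.2 ≤ κ / 2 :=
    Eventually.of_forall (fun n => (hu n).2) |> fun (h : ∀ᶠ n : ℕ in atTop, _) => h
  obtain ⟨x, hx1, hx2⟩ := ((h7.filter_mono inf_le_left).and (h8.filter_mono inf_le_right)).exists
  linarith [hx1 hx2.1]

/-- membership in the rectangle -/
theorem mem_RR1 {x y : ℝ} (hx : |x| ≤ 1) (hy : |y| ≤ 1 / 5) :
    (x : ℂ) + y * Complex.I ∈ RR1 := by
  refine ⟨?_, ?_⟩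
  · simpa using hx
  · simpa using hy

theorem inv_ev {δ : ℝ} (hδ : 0 < δ) : ∀ᶠ N : ℕ in atTop, (1 : ℝ) / N ≤ δ := by
  have h : Tendsto (fun N : ℕ => (1 : ℝ) / N) atTop (𝓝 0) :=
    tendsto_const_nhds.div_atTop tendsto_natCast_atTop_atTop
  exact h.eventually (ge_mem_nhds hδ)

/-- upper bound from the asymptotics of the modulus -/
theorem le_of_mw {u v ε N : ℝ} (hu : 0 < u) (h : |Real.log u - N * v| ≤ ε * N) :
    u ≤ Real.exp (N * (v + ε)) := by
  rw [← Real.log_le_iff_le_exp hu]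
  have := (abs_le.mp h).2
  linarith

/-- the functions of the recursion near `0` -/
theorem goodV {t : ℕ} {X : ℕ → ℂ → ℂ} {F : ℂ → ℂ} (hX : PE t X F) :
    ∃ κ₁ c₁ C₁ : ℝ, 0 < κ₁ ∧ 0 < c₁ ∧ 0 < C₁ ∧ GoodV (1 / 20) (1 / 20) κ₁ c₁ C₁ t X F := by
  have hπ := Real.pi_pos
  have hF := hX.ana
  have hsub3 : Rc (3 * (1 / 20)) (3 * (1 / 20)) ⊆ DD := Rc_sub (by norm_num) (by norm_num)
  have hsub2 : Rc (2 * (1 / 20)) (2 * (1 / 20)) ⊆ RR1 := by
    intro w hw
    have h1 := hw.1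
    have h2 := hw.2
    norm_num at h1 h2
    exact ⟨by linarith, by linarith⟩
  have e0 : ((t : ℂ) / (2 * π)) = ((t / (2 * π) : ℝ) : ℂ) := by push_cast; ring
  have gh : GH (1 / 20) (1 / 20) (9 / (20 * π) * t) (11 / (20 * π) * t) F := by
    refine ⟨hF.Fan.mono hsub3, fun w hw => hF.Fev w (hsub3 hw), ?_, ?_⟩
    · intro w hw
      have h1 := hF.sec w (Rc_sub1 hw)
      have h2 := (Complex.abs_re_le_norm _).trans h1
      rw [e0, Complex.add_re, Complex.ofReal_re, abs_le] at h2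
      have e1 : (t : ℝ) / 10 / (2 * π) - t / (2 * π) = -(9 / (20 * π) * t) := by
        field_simp
        ring
      linarith [h2.2]
    · intro w hw
      have h1 := hF.sec w (Rc_sub1 hw)
      have h2 : ‖deriv (deriv F) w‖ ≤ ‖deriv (deriv F) w + t / (2 * π)‖ + ‖(t / (2 * π) : ℂ)‖ := by
        have := norm_sub_le (deriv (deriv F) w + t / (2 * π)) (t / (2 * π) : ℂ)
        rwa [add_sub_cancel_right] at this
      have h3 : ‖(t / (2 * π) : ℂ)‖ = t / (2 * π) := by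
        rw [e0, Complex.norm_real, Real.norm_of_nonneg (by positivity)]
      have e1 : (t : ℝ) / 10 / (2 * π) + t / (2 * π) = 11 / (20 * π) * t := by
        field_simp
        ring
      linarith
  have mw : MW X F (Rc (2 * (1 / 20)) (2 * (1 / 20))) := by
    intro ε hε
    filter_upwards [hX.mw RR1 RR1_sub RR1_compact ε hε] with N h z hz
    exact h z (hsub2 hz)
  rcases Nat.eq_zero_or_pos t with ht | ht
  · refine ⟨1, 9 / (20 * π), 11 / (20 * π), one_pos, by positivity, by positivity,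
      ⟨hX.an, hX.ev, hF.pos, gh, mw, ?_⟩⟩
    obtain ⟨h1, h2⟩ := hX.zero ht
    refine Eventually.of_forall fun N x y _ _ _ => ?_
    rw [h1, h2, ht]
    simp
  · have ht' : (1 : ℝ) ≤ t := by exact_mod_cast ht
    have ht0 : (0 : ℝ) < t := by linarith
    have hcont : ContinuousOn (fun x : ℂ × Unit => (F x.1).re) (RR1 ×ˢ (Set.univ : Set Unit)) :=
      Complex.continuous_re.comp_continuousOn
        (hF.Fan.continuousOn.comp continuousOn_fst (fun x hx => RR1_sub hx.1))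
    obtain ⟨κ, δ, hκ, hδ, hδ1, hnear⟩ := far_near (f := fun w (_ : Unit) => (F w).re)
      isCompact_univ hcont (fun _ _ w hw => by
        obtain ⟨h1, h2⟩ := RL1_PP hw
        have h3 := hX.tpl.tps ht 0 zero_mem_D0 w h1 h2
        rw [tg_zero _ hw.2.2, add_zero] at h3
        exact h3)
    have h1 : (F 1).re + t / 50 ≤ (F 0).re := by
      have h2 := hX.tpl.tpc 0 zero_mem_D0 1 ⟨by simp, by simp⟩
      rwa [tg_zero _ (by simp), add_zero] at h2
    obtain ⟨τ, hτ, hfar⟩ := hX.far (1 / 400) (by norm_num)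
    obtain ⟨μ, hμ⟩ : ∃ μ : ℝ, μ = min κ (1 / 200) := ⟨_, rfl⟩
    have hμ0 : 0 < μ := by rw [hμ]; exact lt_min hκ (by norm_num)
    have hμ1 : μ ≤ κ := by rw [hμ]; exact min_le_left _ _
    have hμ2 : μ ≤ 1 / 200 := by rw [hμ]; exact min_le_right _ _
    have hμt : (t : ℝ) * (μ / t / 2) = μ / 2 := by field_simp
    refine ⟨μ / t, 9 / (20 * π), 11 / (20 * π), by positivity, by positivity, by positivity,
      ⟨hX.an, hX.ev, hF.pos, gh, mw, ?_⟩⟩
    filter_upwards [hfar, hX.mw RR1 RR1_sub RR1_compact (κ / 2) (by positivity), inv_ev hτ,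
      inv_ev hδ] with N a1 a2 a3 a4 x y hx hx' hy
    have hN : (0 : ℝ) ≤ N := Nat.cast_nonneg N
    rw [hμt]
    rcases le_total 1 |x| with h | h
    · refine (a1 x y h hx' (hy.trans a3)).trans (Real.exp_le_exp.2 ?_)
      apply mul_le_mul_of_nonneg_left _ hN
      linarith
    · have hm := mem_RR1 (x := x) (y := y) h ((hy.trans a4).trans (hδ1.trans (by norm_num)))
      obtain ⟨b1, b2⟩ := a2 _ hm
      refine (le_of_mw (norm_pos_iff.mpr b1) b2).trans (Real.exp_le_exp.2 ?_)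
      apply mul_le_mul_of_nonneg_left _ hN
      have b3 := hnear () (Set.mem_univ _) x y hx h (hy.trans a4)
      linarith

end Pool.Agent.N475.EK
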