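import Pool.Agent.N475.EK.Bas

/-!
# Project EK, expansions: the last step at a vertex without circle
-/

set_option autoImplicit false

namespace Pool.Agent.N475.EK

open Finset Filter Topology Metric
open Pool.Agent.W711.HT hiding XX
open Pool.Agent.TH563.UV
open Pool.Agent.TH563.V
open Pool.Agent.N561
open Pool.Agent.N561.EK
open Pool.Agent.W719.AX (UX GX)
open scoped Real

/-- the second derivative is negative at the critical points -/
theorem sec_neg {t : ℕ} {F : ℂ → ℂ} (hF : AN t F) (ht : 1 ≤ t) {w : ℂ} (hw : w ∈ D1) :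
    (deriv (deriv F) w).re < 0 := by
  have hπ := Real.pi_pos
  have ht' : (1 : ℝ) ≤ t := by exact_mod_cast ht
  have h1 := hF.sec w hw
  have h2 : |(deriv (deriv F) w + t / (2 * π)).re| ≤ t / 10 / (2 * π) :=
    (Complex.abs_re_le_norm _).trans h1
  have h3 : ((t : ℂ) / (2 * π)).re = t / (2 * π) := by
    have : (t : ℂ) / (2 * π) = ((t / (2 * π) : ℝ) : ℂ) := by push_cast; ring
    rw [this, Complex.ofReal_re]
  rw [Complex.add_re, h3, abs_le] at h2
  have h4 : t / 10 / (2 * π) < t / (2 * π) := by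
    have : (0 : ℝ) < t / (2 * π) := by positivity
    have e : t / 10 / (2 * π) = t / (2 * π) / 10 := by ring
    rw [e]
    linarith
  linarith [h2.2]

/-- the inequality between the value at the ends of the path and at the critical point -/
theorem end_lt {t : ℕ} {a : ℤ} {F : ℂ → ℂ} (hT : TP t F) {z : ℂ} (hz : z ∈ D0) (hz0 : 0 < z.im)
    (hc : Complex.I * a * z / (2 * π) + Complex.I + deriv F z = 0) :
    (F 1).re + t / 50 ≤ (qq a F z).re := by
  have h1 := hT.tpc z hz 1 ⟨by simp, by simp⟩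
  have h2 := qq_tg a F hz0 hc 1
  have h3 : (qq a F 1).re - (F 1).re = 0 := by
    have e : Complex.I * a * 1 ^ 2 / (4 * π) + Complex.I * 1 =
        ((a / (4 * π) + 1 : ℝ) : ℂ) * Complex.I := by
      push_cast
      ring
    unfold qq
    rw [Complex.add_re, e, Complex.re_ofReal_mul, Complex.I_re]
    ring
  linarith

theorem rtx1 (hOX : Pool.Agent.N561.AX.S_OUTX) {t m : ℕ} {a : ℤ} {X : ℕ → ℂ → ℂ} {F : ℂ → ℂ}
    {z : ℂ} {A : ℕ → ℂ → ℂ} (ht : 1 ≤ t) (hX : PE t X F) (hA : GXD m X F A) (hz : z ∈ D0)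
    (hz0 : 0 < z.im) (hc : Complex.I * a * z / (2 * π) + Complex.I + deriv F z = 0) :
    ∃ y : ℕ → ℂ, y 0 ≠ 0 ∧
      UX (fun N (_ : Unit) => (N : ℂ) ^ (2 * m) * (Real.sqrt N : ℂ) * (-1) ^ (N * (m + 1)) *
        Complex.exp (-(N * qq a F z)) * upp (1 / N) fun ψ => Eb false a N ψ * X N ψ * kr N ψ)
        (fun k _ => y k) Set.univ := by
  have hπ := Real.pi_gt_three
  have ht' : (1 : ℝ) ≤ t := by exact_mod_cast ht
  have hzD1 := D0_sub hz
  have hzD := D1_sub hzD1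
  have hzre : |z.re| < 1 := by
    have := Complex.abs_re_le_norm z
    have := hz.1
    norm_num at this ⊢
    linarith
  have hzim : z.im ≤ 23 / 100 := hz.2.1
  have hend := end_lt (a := a) hX.tpl hz hz0 hc
  -- the far part
  obtain ⟨τ, hτ, hfar⟩ := hX.far (1 / 400) (by norm_num)
  obtain ⟨τ₁, hτ₁⟩ : ∃ τ₁ : ℝ, τ₁ = min τ (min z.im (1 / (200 * (|(a : ℝ)| + 1)))) := ⟨_, rfl⟩
  have ha0 : 0 ≤ |(a : ℝ)| := abs_nonneg _
  have hτ₁0 : 0 < τ₁ := by rw [hτ₁]; exact lt_min hτ (lt_min hz0 (by positivity))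
  have hτ₁τ : τ₁ ≤ τ := by rw [hτ₁]; exact min_le_left _ _
  have hτ₁z : τ₁ ≤ z.im := by rw [hτ₁]; exact (min_le_right _ _).trans (min_le_left _ _)
  have hτ₁a : |(a : ℝ)| * τ₁ / 2 ≤ 1 / 400 := by
    have h1 : τ₁ ≤ 1 / (200 * (|(a : ℝ)| + 1)) := by
      rw [hτ₁]; exact (min_le_right _ _).trans (min_le_right _ _)
    rw [le_div_iff₀ (by positivity)] at h1
    nlinarith
  -- a disc around the critical point
  obtain ⟨r, hr, hrD⟩ := Metric.nhds_basis_closedBall.mem_iff.mp (isOpen_DD.mem_nhds hzD)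
  have hux : UX (fun N z => (N : ℂ) ^ (2 * m) * (-1) ^ (N * m) *
      Complex.exp (-(N * F z)) * X N z) A (ball z r) :=
    ux_mono (hA.ux _ hrD (isCompact_closedBall _ _)) ball_subset_closedBall
  have hPth : Pth 1 1 z.im z.im τ₁ ⊆ PP z := by
    intro w hw
    rcases hw with ⟨h1, h2, h3⟩ | ⟨h1, h2, h3⟩ | ⟨h1, h2, h3⟩ | ⟨h1, h2⟩
    · exact Or.inr ⟨h1, hτ₁0.le.trans h2, h3⟩
    · exact Or.inl ⟨h2, h3⟩
    · exact Or.inl ⟨h1.le, le_antisymm h3 h2⟩
    · exact Or.inl ⟨h1, h2⟩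
  have hPPD : PP z ⊆ DD := by
    intro w hw
    have h1 : |w.re| ≤ 1 ∧ 0 ≤ w.im ∧ w.im ≤ z.im := by
      rcases hw with ⟨h1, h2⟩ | ⟨h1, h2, h3⟩
      · exact ⟨h1, by rw [h2]; exact hz0.le, h2.le⟩
      · exact ⟨h1.le, h2, h3⟩
    refine ⟨by linarith [h1.1], ?_⟩
    rw [abs_of_nonneg h1.2.1]
    linarith [h1.2.2]
  have hpath : ∀ w ∈ Pth 1 1 z.im z.im τ₁, w ≠ z → (qq a F w).re < (qq a F z).re := by
    intro w hw hwz
    have h1 := hX.tpl.tps ht z hz w (hPth hw) hwz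
    have h2 := qq_tg a F hz0 hc w
    linarith
  have hdF := hX.ana.Fan.differentiableAt (isOpen_DD.mem_nhds hzD)
  have hcrit : deriv (qq a F) z = 0 := by rw [(qq_deriv hdF).deriv, hc]
  have hneg : (deriv (deriv (qq a F)) z).re < 0 := by
    rw [qq_deriv2 isOpen_DD hX.ana.Fan hzD]
    have e : Complex.I * a / (2 * π) = ((a / (2 * π) : ℝ) : ℂ) * Complex.I := by
      push_cast; ring
    rw [Complex.add_re, e, Complex.re_ofReal_mul, Complex.I_re]
    have := sec_neg hX.ana ht hzD1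
    linarith
  obtain ⟨B', hB0, hB'⟩ := hOX a 1 1 z.im τ₁ one_pos le_rfl (by linarith) hτ₁0 hτ₁z
    {0} {0} DD isCompact_singleton subset_rfl isOpen_DD (fun N _ w => X N w)
    (fun N _ w => X N w) (fun _ w => F w) (fun _ => z)
    (fun N => (N : ℂ) ^ (2 * m) * (-1) ^ (N * m))
    (fun N _ _ => hX.an N) (fun N _ _ => hX.an N) (fun _ _ => hX.ana.Fan)
    (hX.ana.Fan.continuousOn.comp continuousOn_snd (fun x hx => hx.2)) continuousOn_const
    (fun ε hε W hW hWc => by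
      filter_upwards [hX.mw W hW hWc ε hε] with N h p _ φ hφ
      exact h φ hφ)
    (fun _ _ => ⟨le_rfl, hzre, hPth.trans hPPD, hcrit, hneg, hpath⟩)
    ⟨1 / 400, by norm_num, by
      filter_upwards [hfar] with N h p _ x y hx hx' hy
      refine (h x y hx hx' (hy.trans hτ₁τ)).trans (Real.exp_le_exp.2 ?_)
      apply mul_le_mul_of_nonneg_left _ (Nat.cast_nonneg N)
      have : (t : ℝ) / 50 - t / 100 ≥ 1 / 100 := by linarith
      linarith, by
      filter_upwards with N p _ x y hx hy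
      rw [sub_self, norm_zero]
      exact (Real.exp_pos _).le⟩
    (fun ε hε => nn_ev m hε) (ball z r) (fun i (x : ℂ × ℂ) => A i x.2)
    isOpen_ball (ball_subset_closedBall.trans hrD) (fun _ _ => mem_ball_self hr)
    (ux_comp hux (fun x : ℂ × ℂ => x.2) (({0} : Set ℂ) ×ˢ ball z r) (fun x hx => hx.2))
    (fun i _ _ => (hA.an i).mono (ball_subset_closedBall.trans hrD))
    (fun x hx => hA.nz _ (hrD (ball_subset_closedBall hx.2)))
  refine ⟨fun k => B' k 0, hB0 0 rfl, ?_⟩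
  have u2 := ux_comp hB' (fun _ : Unit => (0 : ℂ)) Set.univ (fun _ _ => rfl)
  refine ux_eq u2 ?_
  intro N _ _
  have e4 : (-1 : ℂ) ^ (N * (m + 1)) = (-1) ^ (N * m) * (-1) ^ N := by
    rw [← pow_add]
    congr 1
  have e5 : (fun ψ => Eb false a N ψ * X N ψ * kr N ψ) = fun φ => Ea a N φ * X N φ * kr N φ := by
    funext ψ
    simp [Eb]
  rw [e4, e5]
  ring

end Pool.Agent.N475.EK
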