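import Pool.Agent.N475.EK.Gv
import Pool.Agent.N475.EK.Loc

/-!
# Project EK, expansions: the last step
-/

set_option autoImplicit false

namespace Pool.Agent.N475.EK

open Pool.Agent.W711.HT hiding XX
open Pool.Agent.TH563.UV
open Pool.Agent.TH563.V
open Pool.Agent.N561
open Pool.Agent.N561.EK
open Pool.Agent.W719.AX (UX GX)
open scoped Real

theorem rtxe (hOX : Pool.Agent.N561.AX.S_OUTX) (hVLT : Pool.Agent.TH563.V.S_VLT) : S_RTXE := by
  refine ⟨fun t m a X F z A ht hX hA hz hz0 hc => rtx1 hOX ht hX hA hz hz0 hc, ?_⟩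
  intro t m a X F A ht hX hA
  obtain ⟨κ₁, c₁, C₁, hκ₁, hc₁, hC₁, hG⟩ := goodV hX
  exact hVLT (1 / 20) (1 / 20) κ₁ c₁ C₁ (by norm_num) (by norm_num) (by norm_num) le_rfl hκ₁ hc₁
    hC₁ (1 / 20) (1 / 20) (by norm_num) le_rfl (by norm_num) le_rfl t m X F A ht hG
    (gx_of_gxd hA (by norm_num) (by norm_num)) a

end Pool.Agent.N475.EK
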